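import Pool.Agent.R690.Kos.Defs

set_option autoImplicit false

/-!
# The v-number and the regularity
-/

namespace Pool.Agent.R690.Vn

open MvPolynomial Pool.Agent.R690.Kos

/-- The colon ideal `(J : f)`. -/
def cln {R : Type*} [CommRing R] (J : Ideal R) (f : R) : Ideal R where
  carrier := {g | g * f ∈ J}
  add_mem' := by
    intro a b ha hb
    change (a + b) * f ∈ J
    rw [add_mul]; exact J.add_mem ha hb
  zero_mem' := by
    change 0 * f ∈ J
    rw [zero_mul]; exact J.zero_mem
  smul_mem' := by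
    intro c a ha
    change c * a * f ∈ J
    rw [mul_assoc]; exact J.mul_mem_left c ha

variable {n : ℕ} {K : Type*} [Field K]

/-- `d` is the v-number of `J`: the least degree of a homogeneous `f` such that `(J : f)` is a prime
ideal (which is then an associated prime of `S/J`). -/
def HasV (J : Ideal (MvPolynomial (Fin n) K)) (d : ℕ) : Prop :=
  IsLeast {d | ∃ f : MvPolynomial (Fin n) K, f.IsHomogeneous d ∧ (cln J f).IsPrime} d

/-- `r` is the Castelnuovo-Mumford regularity of `J`: the largest `r` such that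
`β_{i,i+r}(J) ≠ 0` for some `i`. -/
def HasReg (J : Ideal (MvPolynomial (Fin n) K)) (r : ℕ) : Prop :=
  IsGreatest {r | ∃ i, gradedBetti J i (i + r) ≠ 0} r

/-- For all large `k` one has `v(J^k) = a k + b` and `reg(J^k) = c k + d`. -/
def Realizes (J : Ideal (MvPolynomial (Fin n) K)) (a b c d : ℤ) : Prop :=
  ∀ᶠ k : ℕ in Filter.atTop, (∃ v : ℕ, HasV (J ^ k) v ∧ (v : ℤ) = a * k + b) ∧
    ∃ r : ℕ, HasReg (J ^ k) r ∧ (r : ℤ) = c * k + d

end Pool.Agent.R690.Vn
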