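import Pool.Agent.R690.Vn.Defs
import Pool.Agent.R690.Pd.Tools
import Pool.Agent.R690.Kos.Fld

set_option autoImplicit false

/-!
# v-numbers and regularity of powers of monomial ideals containing a variable
-/

namespace Pool.Agent.R690.Vn

open Finset MvPolynomial Pool.Agent.R690.Kos

variable {n : ℕ} {K : Type*} [Field K]

/-- The total degree of an exponent vector. -/
def tot (u : Fin n →₀ ℕ) : ℕ := ∑ i, u i

theorem tot_add (u v : Fin n →₀ ℕ) : tot (u + v) = tot u + tot v := by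
  simp [tot, Finset.sum_add_distrib]

theorem tot_mono {u v : Fin n →₀ ℕ} (h : u ≤ v) : tot u ≤ tot v :=
  Finset.sum_le_sum fun i _ => h i

theorem tot_single (i : Fin n) (m : ℕ) : tot (Finsupp.single i m) = m := by
  simp [tot, Finsupp.single_apply]

theorem eq_of_tot {u v : Fin n →₀ ℕ} (h : u ≤ v) (h' : tot v ≤ tot u) : u = v := by
  ext i
  exact (Finset.sum_eq_sum_iff_of_le (s := univ) fun l _ => h l).1
    (le_antisymm (tot_mono h) h') i (mem_univ i)

theorem le_tot (u : Fin n →₀ ℕ) (i : Fin n) : u i ≤ tot u :=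
  Finset.single_le_sum (f := fun i => u i) (fun _ _ => Nat.zero_le _) (mem_univ i)

theorem degree_eq_tot (u : Fin n →₀ ℕ) : u.degree = tot u := by
  rw [Finsupp.degree_eq_sum]; rfl

theorem hom_tot {f : MvPolynomial (Fin n) K} {d : ℕ} (h : f.IsHomogeneous d) {u : Fin n →₀ ℕ}
    (hu : u ∈ f.support) : tot u = d := by
  have h1 := h (mem_support_iff.1 hu)
  rw [← degree_eq_tot, Finsupp.degree_eq_weight_one]
  exact h1

/-! ### Degrees in powers -/

/-- The variables in the ideal. -/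
def Zs (G : Set (Fin n →₀ ℕ)) : Set (Fin n) := {i | Finsupp.single i 1 ∈ G}

variable {G : Set (Fin n →₀ ℕ)}

theorem tot_pos (h0 : (0 : Fin n →₀ ℕ) ∉ G) {g : Fin n →₀ ℕ} (hg : g ∈ G) : 1 ≤ tot g := by
  by_contra h
  have h1 : tot g = 0 := by omega
  have h2 : g = 0 := by
    ext i
    have := le_tot g i
    rw [Finsupp.coe_zero, Pi.zero_apply]; omega
  exact h0 (h2 ▸ hg)

theorem eq_single {g : Fin n →₀ ℕ} (h : tot g = 1) : ∃ i, g = Finsupp.single i 1 := by
  obtain ⟨i, -, hi⟩ : ∃ i ∈ univ, g i ≠ 0 := by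
    apply Finset.exists_ne_zero_of_sum_ne_zero
    change tot g ≠ 0
    omega
  refine ⟨i, (eq_of_tot (fun j => ?_) (by rw [tot_single, h])).symm⟩
  rw [Finsupp.single_apply]
  split_ifs with h1
  · subst h1; omega
  · exact Nat.zero_le _

theorem tot_pw (h0 : (0 : Fin n →₀ ℕ) ∉ G) {k : ℕ} {v : Fin n →₀ ℕ} (hv : v ∈ pw G k) :
    k ≤ tot v ∧ (tot v = k → ∀ j, v j ≠ 0 → j ∈ Zs G) := by
  induction k generalizing v with
  | zero =>
    refine ⟨Nat.zero_le _, fun _ j hj => ?_⟩
    rw [pw, Set.mem_singleton_iff] at hv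
    rw [hv] at hj
    exact absurd rfl hj
  | succ k ih =>
    obtain ⟨u, hu, g, hg, rfl⟩ := hv
    obtain ⟨h1, h2⟩ := ih hu
    have h3 := tot_pos h0 hg
    rw [tot_add]
    refine ⟨by omega, fun h j hj => ?_⟩
    have h4 : tot u = k := by omega
    have h5 : tot g = 1 := by omega
    rw [Finsupp.coe_add, Pi.add_apply] at hj
    by_cases hu' : u j = 0
    · obtain ⟨i, rfl⟩ := eq_single h5
      have h6 : i = j := by
        by_contra hij
        rw [hu', Finsupp.single_apply, if_neg hij] at hj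
        exact hj rfl
      subst h6
      exact hg
    · exact h2 h4 j hu'

theorem tot_pw' (h0 : (0 : Fin n →₀ ℕ) ∉ G) {k : ℕ} {v : Fin n →₀ ℕ} (hv : v ∈ pw G k)
    (hz : ∀ z ∈ Zs G, v z = 0) : 2 * k ≤ tot v := by
  induction k generalizing v with
  | zero => exact Nat.zero_le _
  | succ k ih =>
    obtain ⟨u, hu, g, hg, rfl⟩ := hv
    have h1 : ∀ z ∈ Zs G, u z = 0 ∧ g z = 0 := by
      intro z hz'
      have := hz z hz'
      rw [Finsupp.coe_add, Pi.add_apply] at this
      omega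
    have h2 := ih hu fun z hz' => (h1 z hz').1
    have h3 : 2 ≤ tot g := by
      have h4 := tot_pos h0 hg
      by_contra h5
      obtain ⟨i, hi⟩ := eq_single (g := g) (by omega)
      have h6 : i ∈ Zs G := by rw [hi] at hg; exact hg
      have h7 := (h1 i h6).2
      rw [hi, Finsupp.single_eq_same] at h7
      omega
    rw [tot_add]; omega

/-! ### Minimal generators -/

theorem hm_minGen {G : Set (Fin n →₀ ℕ)} {u : Fin n →₀ ℕ} (hu : u ∈ G)
    (hmin : ∀ v ∈ G, v ≤ u → v = u) : hm K (Fc G u) 0 ≠ 0 := by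
  have h1 := hm_add K (Fc_down G u) 0
  have h2 : nf (Fc G u) (0 + 1) = 0 := by
    refine nf_eq_zero fun T hT hc => ?_
    obtain ⟨j, rfl⟩ := Finset.card_eq_one.1 hc
    obtain ⟨v, hv, hle⟩ := hT
    have h3 := hmin v hv ((self_le_add_right v _).trans hle)
    subst h3
    have h4 := hle j
    rw [Finsupp.coe_add, Pi.add_apply, eT_apply, if_pos (Finset.mem_singleton_self j)] at h4
    omega
  have h3 := rk_of_nf K h2
  have h4 : nf (Fc G u) 0 ≠ 0 := by
    rw [nf, ← Nat.pos_iff_ne_zero, Nat.card_pos_iff]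
    exact ⟨⟨⟨∅, ⟨u, hu, by rw [eT_empty, add_zero]⟩, rfl⟩⟩, inferInstance⟩
  rw [rk_zero] at h1
  omega

open Classical in
theorem bettiIn_zero {G : Set (Fin n →₀ ℕ)} (hG : G.Finite) {i : ℕ} {A : Set (Fin n →₀ ℕ)}
    (h : ∀ a ∈ A, hm K (Fc G a) i = 0) : bettiIn (monIdeal K G) i A = 0 := by
  obtain ⟨B, hB⟩ := exists_bound hG
  rw [bettiIn_fin K hB]
  exact Finset.sum_eq_zero fun a ha => h a (Finset.mem_filter.1 ha).2

open Classical in
theorem bettiIn_ne {G : Set (Fin n →₀ ℕ)} (hG : G.Finite) {i : ℕ} {A : Set (Fin n →₀ ℕ)}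
    {u : Fin n →₀ ℕ} (hu : u ∈ A) (h : hm K (Fc G u) i ≠ 0) : bettiIn (monIdeal K G) i A ≠ 0 := by
  obtain ⟨B, hB⟩ := exists_bound hG
  rw [bettiIn_fin K hB]
  intro hsum
  rw [Finset.sum_eq_zero_iff] at hsum
  refine h (hsum u (Finset.mem_filter.2 ⟨Finset.mem_Iic.2 ?_, hu⟩))
  by_contra h1
  rw [Finsupp.le_def] at h1
  push Not at h1
  obtain ⟨j, hj⟩ := h1
  exact h (hm_of_big j (fun g hg => lt_of_le_of_lt (hB g hg j) hj) i)

theorem reg_minGen {G : Set (Fin n →₀ ℕ)} (hG : G.Finite) {u : Fin n →₀ ℕ} (hu : u ∈ G)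
    (hmin : ∀ v ∈ G, v ≤ u → v = u) : gradedBetti (monIdeal K G) 0 (0 + tot u) ≠ 0 := by
  rw [zero_add]
  exact bettiIn_ne hG (A := {a | ∑ k, a k = tot u}) rfl (hm_minGen hu hmin)

theorem exists_min {G : Set (Fin n →₀ ℕ)} (hG : G.Finite) {w : Fin n →₀ ℕ} (hw : w ∈ G) :
    ∃ u ∈ G, u ≤ w ∧ ∀ v ∈ G, v ≤ u → v = u := by
  obtain ⟨u, ⟨hu, huw⟩, hmin⟩ := Set.exists_min_image {u | u ∈ G ∧ u ≤ w} tot
    (hG.subset fun u hu => hu.1) ⟨w, hw, le_rfl⟩
  exact ⟨u, hu, huw, fun v hv hvu => eq_of_tot hvu (hmin v ⟨hv, hvu.trans huw⟩)⟩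

/-! ### An ideal with a generator outside the variables -/

theorem caseB_reg (hG : G.Finite) (h0 : (0 : Fin n →₀ ℕ) ∉ G) {g : Fin n →₀ ℕ} (hg : g ∈ G)
    (hz : ∀ z ∈ Zs G, g z = 0) {k r : ℕ} (hr : HasReg (monIdeal K G ^ k) r) : 2 * k ≤ r := by
  obtain ⟨u, hu, huw, hmin⟩ := exists_min (pw_finite hG k) (pw_nsmul hg k)
  have h1 : ∀ z ∈ Zs G, u z = 0 := by
    intro z hz'
    have h2 := huw z
    rw [Finsupp.coe_smul, Pi.smul_apply, hz z hz', smul_zero] at h2
    omega
  have h2 := tot_pw' h0 hu h1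
  refine h2.trans (hr.2 ⟨0, ?_⟩)
  rw [monIdeal_pow]
  exact reg_minGen (pw_finite hG k) hu hmin

theorem support_X_mul (j : Fin n) (f : MvPolynomial (Fin n) K) {u : Fin n →₀ ℕ}
    (hu : u ∈ f.support) : u + Finsupp.single j 1 ∈ (X j * f).support := by
  rw [mem_support_iff] at hu ⊢
  rw [mul_comm, add_comm, ← add_comm u, coeff_mul_X]
  exact hu

theorem caseB_v (h0 : (0 : Fin n →₀ ℕ) ∉ G) {g : Fin n →₀ ℕ} (hg : g ∈ G)
    (hz : ∀ z ∈ Zs G, g z = 0) {k v : ℕ} (hv : HasV (monIdeal K G ^ k) v) : k ≤ v := by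
  obtain ⟨f, hf, hP⟩ := hv.1
  by_contra hlt
  push Not at hlt
  have hgk : (monomial g (1 : K)) ^ k * f ∈ monIdeal K G ^ k :=
    Ideal.mul_mem_right _ _ (Ideal.pow_mem_pow
      (show monomial g (1 : K) ∈ monIdeal K G from Ideal.subset_span ⟨g, hg, rfl⟩) k)
  have h1 : monomial g (1 : K) ∈ cln (monIdeal K G ^ k) f := hP.mem_of_pow_mem k hgk
  have h2 : ∃ j, g j ≠ 0 ∧ X j ∈ cln (monIdeal K G ^ k) f := by
    rw [monomial_eq, C_1, one_mul, Finsupp.prod, hP.prod_mem_iff] at h1
    obtain ⟨j, hj, hj'⟩ := h1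
    exact ⟨j, by simpa using hj, hP.mem_of_pow_mem _ hj'⟩
  obtain ⟨j, hgj, hj⟩ := h2
  have h3 : f ∉ monIdeal K G ^ k := by
    intro h
    apply hP.ne_top
    rw [Ideal.eq_top_iff_one]
    change 1 * f ∈ monIdeal K G ^ k
    rwa [one_mul]
  have h4 : X j * f ∈ monIdeal K G ^ k := hj
  rw [monIdeal_pow, mem_monIdeal] at h3 h4
  push Not at h3
  obtain ⟨u, hu, hu'⟩ := h3
  obtain ⟨w, hw, hwu⟩ := h4 _ (support_X_mul j f hu)
  have h5 := tot_pw h0 hw
  have h6 := tot_mono hwu
  rw [tot_add, tot_single, hom_tot hf hu] at h6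
  have h7 : w = u + Finsupp.single j 1 := by
    refine eq_of_tot hwu ?_
    rw [tot_add, tot_single, hom_tot hf hu]
    have := h5.1
    omega
  have h8 : tot w = k := by have := h5.1; omega
  have h9 : j ∈ Zs G := by
    refine h5.2 h8 j ?_
    rw [h7, Finsupp.coe_add, Pi.add_apply, Finsupp.single_eq_same]
    omega
  exact hgj (hz j h9)

/-! ### Ideals generated by variables -/

/-- The exponents of the variables in `Z`. -/
def GZ (Z : Set (Fin n)) : Set (Fin n →₀ ℕ) := {u | ∃ z ∈ Z, u = Finsupp.single z 1}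

open Classical in
/-- The degree in the variables in `Z`. -/
noncomputable def zd (Z : Set (Fin n)) (u : Fin n →₀ ℕ) : ℕ := ∑ i, if i ∈ Z then u i else 0

theorem zd_add (Z : Set (Fin n)) (u v : Fin n →₀ ℕ) : zd Z (u + v) = zd Z u + zd Z v := by
  classical
  rw [zd, zd, zd, ← Finset.sum_add_distrib]
  refine Finset.sum_congr rfl fun i _ => ?_
  rw [Finsupp.coe_add, Pi.add_apply]
  split_ifs <;> rfl

theorem zd_le (Z : Set (Fin n)) (u : Fin n →₀ ℕ) : zd Z u ≤ tot u := by
  classical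
  refine Finset.sum_le_sum fun i _ => ?_
  split_ifs
  · exact le_rfl
  · exact Nat.zero_le _

theorem zd_mono (Z : Set (Fin n)) {u v : Fin n →₀ ℕ} (h : u ≤ v) : zd Z u ≤ zd Z v := by
  classical
  refine Finset.sum_le_sum fun i _ => ?_
  split_ifs
  · exact h i
  · exact le_rfl

theorem zd_single {Z : Set (Fin n)} {z : Fin n} (hz : z ∈ Z) (m : ℕ) :
    zd Z (Finsupp.single z m) = m := by
  classical
  rw [zd, Finset.sum_eq_single z]
  · rw [if_pos hz, Finsupp.single_eq_same]
  · intro j _ hj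
    rw [Finsupp.single_apply, if_neg hj.symm, ite_self]
  · intro h; exact absurd (mem_univ z) h

theorem pw_GZ {Z : Set (Fin n)} {k : ℕ} {u : Fin n →₀ ℕ} :
    (∃ v ∈ pw (GZ Z) k, v ≤ u) ↔ k ≤ zd Z u := by
  constructor
  · rintro ⟨v, hv, hvu⟩
    refine le_trans ?_ (zd_mono Z hvu)
    clear hvu
    induction k generalizing v with
    | zero => exact Nat.zero_le _
    | succ k ih =>
      obtain ⟨w, hw, g, ⟨z, hz, rfl⟩, rfl⟩ := hv
      rw [zd_add, zd_single hz]
      have := ih w hw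
      omega
  · intro h
    induction k generalizing u with
    | zero => exact ⟨0, rfl, zero_le⟩
    | succ k ih =>
      classical
      obtain ⟨z, -, hz⟩ : ∃ z ∈ univ, (if z ∈ Z then u z else 0) ≠ 0 := by
        apply Finset.exists_ne_zero_of_sum_ne_zero
        change zd Z u ≠ 0
        omega
      have hzZ : z ∈ Z := by
        by_contra h1
        rw [if_neg h1] at hz
        exact hz rfl
      rw [if_pos hzZ] at hz
      have h1 : Finsupp.single z 1 ≤ u := by
        rw [Finsupp.single_le_iff]; omega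
      obtain ⟨u', rfl⟩ := exists_add_of_le h1
      rw [zd_add, zd_single hzZ] at h
      obtain ⟨v, hv, hvu⟩ := ih (u := u') (by omega)
      refine ⟨v + Finsupp.single z 1, ⟨v, hv, _, ⟨z, hzZ, rfl⟩, rfl⟩, ?_⟩
      rw [add_comm]
      exact add_le_add_right hvu _

theorem mem_GZ_pow {Z : Set (Fin n)} {k : ℕ} {f : MvPolynomial (Fin n) K} :
    f ∈ monIdeal K (GZ Z) ^ k ↔ ∀ u ∈ f.support, k ≤ zd Z u := by
  rw [monIdeal_pow, mem_monIdeal]
  simp only [pw_GZ]

theorem mem_GZ {Z : Set (Fin n)} {f : MvPolynomial (Fin n) K} :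
    f ∈ monIdeal K (GZ Z) ↔ ∀ u ∈ f.support, 1 ≤ zd Z u := by
  rw [← mem_GZ_pow, pow_one]

/-- The ideal generated by variables is prime. -/
theorem prime_GZ (Z : Set (Fin n)) : (monIdeal K (GZ Z)).IsPrime := by
  classical
  set φ : MvPolynomial (Fin n) K →ₐ[K] MvPolynomial (Fin n) K :=
    aeval fun i => if i ∈ Z then 0 else X i with hφ
  have h1 : RingHom.ker φ = monIdeal K (GZ Z) := by
    apply le_antisymm
    · intro f hf
      have h2 : ∀ p : MvPolynomial (Fin n) K, p - φ p ∈ monIdeal K (GZ Z) := by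
        intro p
        induction p using MvPolynomial.induction_on with
        | C a =>
          rw [hφ, ← algebraMap_eq, AlgHom.commutes, sub_self]
          exact Ideal.zero_mem _
        | add p q hp hq =>
          rw [map_add, add_sub_add_comm]
          exact Ideal.add_mem _ hp hq
        | mul_X p i hp =>
          have e : p * X i - φ (p * X i) = (p - φ p) * X i + φ p * (X i - φ (X i)) := by
            rw [map_mul]; ring
          rw [e]
          refine Ideal.add_mem _ (Ideal.mul_mem_right _ _ hp) (Ideal.mul_mem_left _ _ ?_)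
          rw [hφ, aeval_X]
          split_ifs with hi
          · rw [sub_zero]
            exact Ideal.subset_span ⟨_, ⟨i, hi, rfl⟩, rfl⟩
          · rw [sub_self]; exact Ideal.zero_mem _
      have h3 := h2 f
      rw [RingHom.mem_ker] at hf
      have h4 : φ f = 0 := hf
      rwa [h4, sub_zero] at h3
    · rw [monIdeal, Ideal.span_le]
      rintro _ ⟨u, ⟨z, hz, rfl⟩, rfl⟩
      change φ (X z) = 0
      rw [hφ, aeval_X, if_pos hz]
  rw [← h1]
  exact RingHom.ker_isPrime _

theorem support_X_pow_mul (j : Fin n) (m : ℕ) (f : MvPolynomial (Fin n) K) {u : Fin n →₀ ℕ}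
    (hu : u ∈ (f * X j ^ m).support) : ∃ w ∈ f.support, u = w + Finsupp.single j m := by
  rw [X_pow_eq_monomial, mem_support_iff, coeff_mul_monomial'] at hu
  split_ifs at hu with h
  · rw [mul_one] at hu
    exact ⟨u - Finsupp.single j m, mem_support_iff.2 hu, (tsub_add_cancel_of_le h).symm⟩
  · exact absurd rfl hu

theorem caseA_v {Z : Set (Fin n)} {z : Fin n} (hz : z ∈ Z) {k v : ℕ} (hk : 1 ≤ k)
    (hv : HasV (monIdeal K (GZ Z) ^ k) v) : v = k - 1 := by
  apply le_antisymm
  · apply hv.2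
    refine ⟨X z ^ (k - 1), ?_, ?_⟩
    · have := (isHomogeneous_X K z).pow (k - 1)
      rwa [one_mul] at this
    · have h1 : cln (monIdeal K (GZ Z) ^ k) (X z ^ (k - 1)) = monIdeal K (GZ Z) := by
        ext f
        change f * X z ^ (k - 1) ∈ monIdeal K (GZ Z) ^ k ↔ f ∈ monIdeal K (GZ Z)
        constructor
        · intro h
          rw [mem_GZ_pow] at h
          rw [mem_GZ]
          intro u hu
          have h2 : u + Finsupp.single z (k - 1) ∈ (f * X z ^ (k - 1)).support := by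
            rw [mem_support_iff] at hu ⊢
            rw [X_pow_eq_monomial, coeff_mul_monomial, mul_one]
            exact hu
          have h3 := h _ h2
          rw [zd_add, zd_single hz] at h3
          omega
        · intro h
          have h2 : (X z : MvPolynomial (Fin n) K) ∈ monIdeal K (GZ Z) :=
            Ideal.subset_span ⟨_, ⟨z, hz, rfl⟩, rfl⟩
          have h3 := Ideal.mul_mem_mul h (Ideal.pow_mem_pow h2 (k - 1))
          rwa [← pow_succ', Nat.sub_add_cancel hk] at h3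
      rw [h1]
      exact prime_GZ Z
  · obtain ⟨f, hf, hP⟩ := hv.1
    have h2 : (X z : MvPolynomial (Fin n) K) ∈ monIdeal K (GZ Z) :=
      Ideal.subset_span ⟨_, ⟨z, hz, rfl⟩, rfl⟩
    have h3 : (X z : MvPolynomial (Fin n) K) ^ k * f ∈ monIdeal K (GZ Z) ^ k :=
      Ideal.mul_mem_right _ _ (Ideal.pow_mem_pow h2 k)
    have h4 : X z * f ∈ monIdeal K (GZ Z) ^ k := hP.mem_of_pow_mem k h3
    have h5 : f ∉ monIdeal K (GZ Z) ^ k := by
      intro h
      apply hP.ne_top
      rw [Ideal.eq_top_iff_one]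
      change 1 * f ∈ monIdeal K (GZ Z) ^ k
      rwa [one_mul]
    rw [mem_GZ_pow] at h4 h5
    push Not at h5
    obtain ⟨u, hu, -⟩ := h5
    have h6 := h4 _ (support_X_mul z f hu)
    rw [zd_add, zd_single hz] at h6
    have h7 := zd_le Z u
    rw [hom_tot hf hu] at h7
    omega

/-- Linear resolution of the powers of an ideal generated by variables. -/
theorem caseA_hm {Z : Set (Fin n)} {k i r : ℕ} (hr : k < r) {a : Fin n →₀ ℕ}
    (ha : tot a = i + r) : hm K (Fc (pw (GZ Z) k) a) i = 0 := by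
  classical
  have hFc : ∀ T, Fc (pw (GZ Z) k) a T ↔ eT T ≤ a ∧ k + zd Z (eT T) ≤ zd Z a := by
    intro T
    constructor
    · rintro ⟨g, hg, h⟩
      refine ⟨(self_le_add_left _ _).trans h, ?_⟩
      have h1 := (pw_GZ (Z := Z) (k := k) (u := g)).1 ⟨g, hg, le_rfl⟩
      have h2 := zd_mono Z h
      rw [zd_add] at h2
      omega
    · rintro ⟨h1, h2⟩
      obtain ⟨a', rfl⟩ := exists_add_of_le h1
      rw [zd_add] at h2
      obtain ⟨v, hv, hva⟩ := (pw_GZ (Z := Z) (k := k) (u := a')).2 (by omega)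
      refine ⟨v, hv, ?_⟩
      rw [add_comm]
      exact add_le_add_right hva _
  by_cases h1 : ∃ j, j ∉ Z ∧ a j ≠ 0
  · obtain ⟨j, hj, haj⟩ := h1
    refine hm_cone K j (fun T hT => ?_) i
    rw [hFc] at hT ⊢
    refine ⟨fun x => ?_, ?_⟩
    · rw [eT_apply]
      split_ifs with hx
      · rcases Finset.mem_insert.1 hx with rfl | hx
        · omega
        · have := hT.1 x
          rwa [eT_apply, if_pos hx] at this
      · exact Nat.zero_le _
    · have h2 : zd Z (eT (insert j T)) = zd Z (eT T) := by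
        rw [zd, zd]
        refine Finset.sum_congr rfl fun x _ => ?_
        split_ifs with hx
        · rw [eT_apply, eT_apply]
          have : x ≠ j := fun h => hj (h ▸ hx)
          simp [this]
        · rfl
      rw [h2]; exact hT.2
  · push Not at h1
    have hza : zd Z a = tot a := by
      rw [zd, tot]
      refine Finset.sum_congr rfl fun x _ => ?_
      split_ifs with hx
      · rfl
      · exact (h1 x hx).symm
    have hzT : ∀ T, eT T ≤ a → zd Z (eT T) = T.card := by
      intro T hT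
      rw [zd, Finset.card_eq_sum_ones, ← Finset.sum_filter_add_sum_filter_not univ (· ∈ T),
        Finset.filter_mem_eq_inter, Finset.univ_inter]
      have h2 : ∑ x ∈ univ.filter (· ∉ T), (if x ∈ Z then (eT T) x else 0) = 0 := by
        refine Finset.sum_eq_zero fun x hx => ?_
        rw [eT_apply, if_neg (Finset.mem_filter.1 hx).2, ite_self]
      rw [h2, add_zero]
      refine Finset.sum_congr rfl fun x hx => ?_
      have h3 := hT x
      rw [eT_apply, if_pos hx] at h3 ⊢
      rw [if_pos]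
      by_contra h4
      have := h1 x h4
      omega
    obtain ⟨v, -, hv⟩ : ∃ v ∈ univ, a v ≠ 0 := by
      apply Finset.exists_ne_zero_of_sum_ne_zero
      change tot a ≠ 0
      omega
    refine hm_zero_of_exact K fun z hz hz' => ?_
    refine ⟨up K v z, ?_, ?_⟩
    · intro T hT
      rw [up] at hT
      split_ifs at hT with h
      · have h2 := hz _ (right_ne_zero_of_mul hT)
        rw [hFc] at h2
        have h3 := h2.1.2
        rw [hza, hzT _ h2.1.1, h2.2] at h3
        have h4 : T.card = i + 1 := by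
          have := h2.2
          rw [Finset.card_erase_of_mem h] at this
          have := Finset.card_pos.2 ⟨v, h⟩
          omega
        have h5 : eT T ≤ a := by
          intro x
          rw [eT_apply]
          split_ifs with hx
          · by_cases hxv : x = v
            · subst hxv; omega
            · have := h2.1.1 x
              rwa [eT_apply, if_pos (Finset.mem_erase.2 ⟨hxv, hx⟩)] at this
          · exact Nat.zero_le _
        refine ⟨(hFc T).2 ⟨h5, ?_⟩, h4⟩
        rw [hza, hzT T h5, h4]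
        omega
      · exact absurd rfl hT
    · have h2 := bd_up K v z
      have h3 : up K v (0 : Finset (Fin n) → K) = 0 := by
        funext T; simp [up]
      rw [hz', h3, add_zero] at h2
      exact h2

theorem GZ_finite (Z : Set (Fin n)) : (GZ Z).Finite := by
  refine ((Set.toFinite (Set.univ : Set (Fin n))).image fun z => Finsupp.single z 1).subset ?_
  rintro u ⟨z, -, rfl⟩
  exact ⟨z, Set.mem_univ z, rfl⟩

theorem caseA_reg {Z : Set (Fin n)} {k r : ℕ} (hk : 1 ≤ k)
    (hr : HasReg (monIdeal K (GZ Z) ^ k) r) : r = k ∧ Z.Nonempty := by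
  classical
  have hle : r ≤ k := by
    by_contra hlt
    obtain ⟨i, hi⟩ := hr.1
    apply hi
    rw [gradedBetti, monIdeal_pow]
    exact bettiIn_zero (pw_finite (GZ_finite Z) k) fun a ha => caseA_hm (by omega) ha
  have hZ : Z.Nonempty := by
    by_contra hZ
    rw [Set.not_nonempty_iff_eq_empty] at hZ
    subst hZ
    obtain ⟨i, hi⟩ := hr.1
    apply hi
    have hempty : ∀ v, v ∉ pw (GZ (∅ : Set (Fin n))) k := by
      intro v hv
      obtain ⟨k', rfl⟩ : ∃ k', k = k' + 1 := ⟨k - 1, by omega⟩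
      obtain ⟨_, _, g, ⟨z, hz, -⟩, -⟩ := hv
      exact hz
    rw [gradedBetti, monIdeal_pow]
    refine bettiIn_zero (pw_finite (GZ_finite _) k) fun a _ => hm_void K (Fc_down _ _) ?_ i
    rintro ⟨g, hg, -⟩
    exact hempty g hg
  refine ⟨le_antisymm hle ?_, hZ⟩
  obtain ⟨z, hz⟩ := hZ
  have h1 : k • (Finsupp.single z 1 : Fin n →₀ ℕ) ∈ pw (GZ Z) k :=
    pw_nsmul (G := GZ Z) ⟨z, hz, rfl⟩ k
  obtain ⟨u, hu, huw, hmin⟩ := exists_min (pw_finite (GZ_finite Z) k) h1
  have h2 := (pw_GZ (Z := Z) (k := k) (u := u)).1 ⟨u, hu, le_rfl⟩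
  refine (h2.trans (zd_le Z u)).trans (hr.2 ⟨0, ?_⟩)
  rw [monIdeal_pow]
  exact reg_minGen (pw_finite (GZ_finite Z) k) hu hmin

/-- The main theorem. -/
theorem main {G : Set (Fin n →₀ ℕ)} (hG : G.Finite) (htop : monIdeal K G ≠ ⊤) {b c d : ℤ}
    (h : Realizes (monIdeal K G) 1 b c d) : (b = -1 ∧ c = 1 ∧ d = 0) ∨ (0 ≤ b ∧ 2 ≤ c) := by
  have h0 : (0 : Fin n →₀ ℕ) ∉ G := by
    intro h0
    apply htop
    rw [Ideal.eq_top_iff_one]
    exact Ideal.subset_span ⟨0, h0, rfl⟩
  obtain ⟨k0, hk0⟩ := Filter.eventually_atTop.1 h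
  by_cases hB : ∃ g ∈ G, ∀ z ∈ Zs G, g z = 0
  · obtain ⟨g, hg, hz⟩ := hB
    right
    constructor
    · obtain ⟨⟨v, hv, hv'⟩, -⟩ := hk0 k0 le_rfl
      have := caseB_v h0 hg hz hv
      omega
    · by_contra hc
      push Not at hc
      set k := k0 + d.toNat + 1 with hk
      obtain ⟨-, r, hr, hr'⟩ := hk0 k (by omega)
      have h1 := caseB_reg hG h0 hg hz hr
      have h2 : c * (k : ℤ) ≤ 1 * (k : ℤ) := mul_le_mul_of_nonneg_right (by omega) (by omega)
      have h3 := Int.self_le_toNat d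
      omega
  · left
    push Not at hB
    have hI : monIdeal K G = monIdeal K (GZ (Zs G)) := by
      apply le_antisymm
      · rw [monIdeal, Ideal.span_le]
        rintro _ ⟨g, hg, rfl⟩
        obtain ⟨z, hz, hgz⟩ := hB g hg
        rw [SetLike.mem_coe, monomial_mem]
        intro _
        refine ⟨_, ⟨z, hz, rfl⟩, ?_⟩
        rw [Finsupp.single_le_iff]; omega
      · refine Ideal.span_mono (Set.image_mono ?_)
        rintro _ ⟨z, hz, rfl⟩
        exact hz
    rw [hI] at hk0
    have key : ∀ k, k0 + 1 ≤ k → (k : ℤ) - 1 = 1 * k + b ∧ (k : ℤ) = c * k + d := by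
      intro k hk
      obtain ⟨⟨v, hv, hv'⟩, r, hr, hr'⟩ := hk0 k (by omega)
      obtain ⟨h1, z, hz⟩ := caseA_reg (by omega) hr
      have h2 := caseA_v hz (by omega) hv
      constructor
      · rw [← hv', h2, Nat.cast_sub (by omega)]; simp
      · rw [← hr', h1]
    obtain ⟨e1, e2⟩ := key (k0 + 1) le_rfl
    obtain ⟨e3, e4⟩ := key (k0 + 2) (by omega)
    push_cast at e1 e2 e3 e4
    have hc : c = 1 := by linarith
    subst hc
    refine ⟨by linarith, rfl, by linarith⟩

end Pool.Agent.R690.Vn
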